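import Mathlib
import Pool.Agent.Lib.MP_f02ea4_nt.IP.Final
import Pool.Agent.Lib.MP_f02ea4_nt.TB.IPFinal

/-!
# The indices of an odd perfect number

Let `N` be an odd perfect number, `p` a prime factor of `N` and `p ^ v` the exact power of `p` in
`N`. The index of `N` at `p` is `i = σ(N / p ^ v) / p ^ v`. We prove that all indices of `N`, with
at most one exception, are larger than `N ^ (1 / 5) / 3`, and that every index is at least
`exp (2 c (log N) ^ (2 / 3) / (1 + log log N) ^ C)`, with absolute constants `c > 0` and `C`,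
and satisfies `log N ≤ 17501 ω(p - 1) log i`.
-/

set_option autoImplicit false

namespace Pool.Agent.Results.MP_f02ea4_nt.IndexPrimes

open Pool.Agent.Lib.MP_f02ea4_nt

/-- The index of `N` at the prime `p`: `σ(N / p ^ v) / p ^ v`, where `p ^ v` is the exact power of
`p` in `N`. -/
def index (N p : ℕ) : ℕ :=
  ArithmeticFunction.sigma 1 (N / p ^ N.factorization p) / p ^ N.factorization p

/-- One plus the number of odd primes `l` which divide `p - 1` and divide the exponent of `r` in
`N` plus one, for some prime factor `r ≠ p` of `N`. -/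
def orderPrimes (N p : ℕ) : ℕ :=
  ((p - 1).primeFactors.filter (fun l => l ≠ 2 ∧
    ∃ r ∈ N.primeFactors, r ≠ p ∧ l ∣ N.factorization r + 1)).card + 1

/-- `(log N) ^ (2 / 3) / (1 + log log N) ^ C` -/
noncomputable def gain (C N : ℕ) : ℝ :=
  Real.log N ^ ((2 : ℝ) / 3) / (1 + Real.log (Real.log N)) ^ C

theorem lt_sqrt_exp {N p k i : ℕ} {x : ℝ} (hp : p.Prime) (h : p ^ (2 * k) * i < 2 * N)
    (hi : Real.exp (2 * x) ≤ i) : (p : ℝ) ^ k < √(2 * N) * Real.exp (-x) := by
  have hp0 : (0 : ℝ) < p := by exact_mod_cast hp.pos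
  have h1 : ((p : ℝ)) ^ (2 * k) * i < 2 * N := by exact_mod_cast h
  have h2 : ((p : ℝ) ^ k) ^ 2 * Real.exp (2 * x) < 2 * N := by
    refine lt_of_le_of_lt ?_ h1
    rw [← pow_mul, mul_comm k 2]
    exact mul_le_mul_of_nonneg_left hi (by positivity)
  refine lt_of_pow_lt_pow_left₀ 2 (by positivity) ?_
  rw [mul_pow, Real.sq_sqrt (by positivity), ← Real.exp_nat_mul]
  have h3 : ((2 : ℕ) : ℝ) * -x = -(2 * x) := by push_cast; ring
  rw [h3, Real.exp_neg, ← div_eq_mul_inv, lt_div_iff₀ (Real.exp_pos _)]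
  exact h2

/-- Two different prime factors of an odd perfect number. -/
theorem pair {N p q : ℕ} (hodd : Odd N) (hperf : Nat.Perfect N) (hp : p ∈ N.primeFactors)
    (hq : q ∈ N.primeFactors) (hpq : p ≠ q) :
    (p ^ N.factorization p * q ^ N.factorization q) ^ 5 < 864 * N ^ 4 ∧
    N ^ 2 < (9 * (index N p * index N q)) ^ 5 := by
  have hN0 : N ≠ 0 := hperf.2.ne'
  have hpp := Nat.prime_of_mem_primeFactors hp
  have hpd := Nat.dvd_of_mem_primeFactors hp
  have hqp := Nat.prime_of_mem_primeFactors hq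
  have hqd := Nat.dvd_of_mem_primeFactors hq
  have hk : 1 ≤ N.factorization p := hpp.factorization_pos_of_dvd hN0 hpd
  have hl : 1 ≤ N.factorization q := hqp.factorization_pos_of_dvd hN0 hqd
  have hcop : Nat.Coprime (p ^ N.factorization p) (q ^ N.factorization q) :=
    Nat.Coprime.pow _ _ ((Nat.coprime_primes hpp hqp).2 hpq)
  have hdv : p ^ N.factorization p * q ^ N.factorization q ∣ N :=
    hcop.mul_dvd_of_dvd_of_dvd (Nat.ordProj_dvd N p) (Nat.ordProj_dvd N q)
  obtain ⟨R, hR⟩ := hdv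
  have hP0 : 0 < p ^ N.factorization p := pow_pos hpp.pos _
  have hQ0 : 0 < q ^ N.factorization q := pow_pos hqp.pos _
  have hM1 : N / p ^ N.factorization p = q ^ N.factorization q * R := by
    apply Nat.div_eq_of_eq_mul_right hP0
    rw [← mul_assoc]
    exact hR
  have hM2 : N / q ^ N.factorization q = p ^ N.factorization p * R := by
    apply Nat.div_eq_of_eq_mul_right hQ0
    rw [← mul_assoc, mul_comm (q ^ N.factorization q)]
    exact hR
  have hpR : ¬ p ∣ R := by
    intro h
    apply Nat.not_dvd_ordCompl hpp hN0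
    rw [hM1]
    exact Dvd.dvd.mul_left h _
  have hqR : ¬ q ∣ R := by
    intro h
    apply Nat.not_dvd_ordCompl hqp hN0
    rw [hM2]
    exact Dvd.dvd.mul_left h _
  have h := Idx.two_indices hodd hperf hpp hqp hpq (by omega) (by omega) hpR hqR hR
  rw [index, index, hM1, hM2]
  exact h

/-- There are `C` and `c > 0` such that the following holds for every odd perfect number `N`. Let
`g(N) = (log N) ^ (2 / 3) / (1 + log log N) ^ C`.

* For every prime factor `p` of `N`, `p ^ v` the exact power of `p` in `N`, the index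
  `i = σ(N / p ^ v) / p ^ v` is an integer, at least `exp (2 c g(N))`, and
  `log N ≤ log i * min (17501 w) (62 v + 1)`, where `w = orderPrimes N p` is at most `ω(p - 1)`;
  `p ^ v` is less than `√(2 N) * exp (-c g(N))` and less than
  `√2 * N ^ (1 / 2 - 1 / (35002 ω(p - 1)))`. If all exponents of `N / p ^ v` are at most `B`, then
  `w ≤ π(B + 1)` and `p ^ v < √2 * N ^ (1 / 2 - 1 / (35002 π(B + 1)))`.
* For two different prime factors the product of the prime power components is less than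
  `(864 N ^ 4) ^ (1 / 5)` and the product of the indices is more than `N ^ (2 / 5) / 9`.
* At most one prime factor of `N` has index at most `N ^ (1 / 5) / 3`. -/
theorem result : ∃ C : ℕ, ∃ c : ℝ, 0 < c ∧ ∀ N : ℕ, Odd N → Nat.Perfect N →
    (∀ p ∈ N.primeFactors,
      p ^ N.factorization p ∣ ArithmeticFunction.sigma 1 (N / p ^ N.factorization p) ∧
      Real.exp (2 * c * gain C N) ≤ (index N p : ℝ) ∧
      Real.log N ≤ Real.log (index N p : ℝ) *
        min (17501 * (orderPrimes N p : ℝ)) (62 * (N.factorization p : ℝ) + 1) ∧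
      orderPrimes N p ≤ (p - 1).primeFactors.card ∧
      (p : ℝ) ^ N.factorization p <
        √(2 * N) * Real.exp (-(c * gain C N)) ∧
      (p : ℝ) ^ N.factorization p <
        √2 * (N : ℝ) ^ ((1 : ℝ) / 2 - 1 / (35002 * ((p - 1).primeFactors.card : ℝ))) ∧
      ∀ B : ℕ, 1 ≤ B → (∀ r ∈ N.primeFactors, r ≠ p → N.factorization r ≤ B) →
        orderPrimes N p ≤ Nat.primeCounting (B + 1) ∧
        (p : ℝ) ^ N.factorization p <
          √2 * (N : ℝ) ^ ((1 : ℝ) / 2 - 1 / (35002 * (Nat.primeCounting (B + 1) : ℝ)))) ∧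
    (∀ p ∈ N.primeFactors, ∀ q ∈ N.primeFactors, p ≠ q →
      (p ^ N.factorization p * q ^ N.factorization q) ^ 5 < 864 * N ^ 4 ∧
      N ^ 2 < (9 * (index N p * index N q)) ^ 5) ∧
    (N.primeFactors.filter fun p => (3 * index N p) ^ 5 ≤ N).card ≤ 1 := by
  obtain ⟨C, c₀, hc₀, hreal⟩ := Pool.Agent.MP_f02ea4.TB.index_bound
  refine ⟨C, c₀ / 2, by positivity, ?_⟩
  intro N hodd hperf
  have hpair := fun p hp q hq hpq => pair (p := p) (q := q) hodd hperf hp hq hpq
  refine ⟨?_, hpair, ?_⟩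
  swap
  · rw [Finset.card_le_one]
    intro p hp q hq
    rw [Finset.mem_filter] at hp hq
    by_contra hpq
    have h := (hpair p hp.1 q hq.1 hpq).2
    have h1 : (9 * (index N p * index N q)) ^ 5 = (3 * index N p) ^ 5 * (3 * index N q) ^ 5 := by
      ring
    have h2 : (3 * index N p) ^ 5 * (3 * index N q) ^ 5 ≤ N * N := Nat.mul_le_mul hp.2 hq.2
    rw [h1] at h
    nlinarith
  intro p hpN
  have hN0 : N ≠ 0 := hperf.2.ne'
  have hp := Nat.prime_of_mem_primeFactors hpN
  have hpd := Nat.dvd_of_mem_primeFactors hpN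
  obtain ⟨k, hk⟩ : ∃ k, k = N.factorization p := ⟨_, rfl⟩
  obtain ⟨M, hM⟩ : ∃ M, M = N / p ^ k := ⟨_, rfl⟩
  have hk1 : k ≠ 0 := by
    rw [hk]
    exact (hp.factorization_pos_of_dvd hN0 hpd).ne'
  have hNM : N = p ^ k * M := by
    rw [hM, hk]
    exact (Nat.ordProj_mul_ordCompl_eq_self N p).symm
  have hpM : ¬ p ∣ M := by
    rw [hM, hk]
    exact Nat.not_dvd_ordCompl hp hN0
  have hM0 : M ≠ 0 := by
    rintro rfl
    exact hpM (dvd_zero p)
  have hfac : ∀ r, r ∈ M.primeFactors → r ∈ N.primeFactors ∧ r ≠ p ∧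
      M.factorization r = N.factorization r := by
    intro r hr
    have hrp := Nat.prime_of_mem_primeFactors hr
    have hrd := Nat.dvd_of_mem_primeFactors hr
    have hrp' : r ≠ p := by
      rintro rfl
      exact hpM hrd
    refine ⟨?_, hrp', ?_⟩
    · rw [Nat.mem_primeFactors]
      refine ⟨hrp, ?_, hN0⟩
      rw [hNM]
      exact Dvd.dvd.mul_left hrd _
    · rw [hNM, Nat.factorization_mul (pow_ne_zero _ hp.ne_zero) hM0, Finsupp.add_apply,
        hp.factorization_pow, Finsupp.single_apply, if_neg (Ne.symm hrp'), zero_add]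
  have hfac' : ∀ r, r ∈ N.primeFactors → r ≠ p → r ∈ M.primeFactors := by
    intro r hr hrp'
    have hrp := Nat.prime_of_mem_primeFactors hr
    have hrd := Nat.dvd_of_mem_primeFactors hr
    rw [Nat.mem_primeFactors]
    refine ⟨hrp, ?_, hM0⟩
    rw [hNM] at hrd
    rcases (Nat.Prime.dvd_mul hrp).1 hrd with h | h
    · exact absurd ((Nat.prime_dvd_prime_iff_eq hrp hp).1 (hrp.dvd_of_dvd_pow h)) hrp'
    · exact h
  obtain ⟨h1, -, h3⟩ := Idx.main hodd hperf hp hpM hNM
  have hw := IP.log_le hodd hperf hp hpM hNM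
  have hth := hreal hodd hperf hp hpM hNM
  have hidx : index N p = ArithmeticFunction.sigma 1 M / p ^ k := by
    rw [index, ← hk, ← hM]
  have hWeq : orderPrimes N p = ((p - 1).primeFactors.filter (fun l => l ≠ 2 ∧
      ∃ r ∈ M.primeFactors, l ∣ M.factorization r + 1)).card + 1 := by
    rw [orderPrimes]
    congr 2
    apply Finset.filter_congr
    intro l _
    constructor
    · rintro ⟨h2, r, hr, hrp, hl⟩
      have hrM := hfac' r hr hrp
      exact ⟨h2, r, hrM, by rw [(hfac r hrM).2.2]; exact hl⟩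
    · rintro ⟨h2, r, hr, hl⟩
      obtain ⟨hrN, hrp, hf⟩ := hfac r hr
      exact ⟨h2, r, hrN, hrp, by rw [← hf]; exact hl⟩
  rw [← hk, ← hM, hWeq, hidx]
  set i : ℕ := ArithmeticFunction.sigma 1 M / p ^ k with hi
  set W : ℕ := ((p - 1).primeFactors.filter (fun l => l ≠ 2 ∧
      ∃ r ∈ M.primeFactors, l ∣ M.factorization r + 1)).card + 1 with hW
  have hI : 0 ≤ Real.log (i : ℝ) := Real.log_natCast_nonneg i
  have hN : (0 : ℝ) < N := by exact_mod_cast hperf.2
  have hN3 : 3 ≤ N := by
    have h4 := hperf.2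
    obtain ⟨j, hj⟩ := hodd
    have h5 : N ≠ 1 := by
      rintro rfl
      have := hperf.1
      simp at this
    omega
  have hx1 : 1 ≤ Real.log N := by
    rw [Real.le_log_iff_exp_le hN]
    have h4 : Real.exp 1 < 2.7182818286 := Real.exp_one_lt_d9
    have h5 : (3 : ℝ) ≤ N := by exact_mod_cast hN3
    linarith
  have hwW : Real.log N ≤ Real.log i * (17501 * (W : ℝ)) := by
    have h4 : (W : ℝ) = (((p - 1).primeFactors.filter (fun l => l ≠ 2 ∧
      ∃ r ∈ M.primeFactors, l ∣ M.factorization r + 1)).card : ℝ) + 1 := by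
      rw [hW]; push_cast; rfl
    rw [h4, mul_comm (Real.log (i : ℝ))]
    exact hw
  have h4 : Real.log N ≤ Real.log i * (62 * (k : ℝ) + 1) := by
    have h5 : (N : ℝ) ≤ (i : ℝ) ^ (62 * k + 1) := by exact_mod_cast h3
    have h6 := Real.log_le_log hN h5
    rw [Real.log_pow] at h6
    push_cast at h6
    linarith
  have hi0 : i ≠ 0 := by
    intro h0
    rw [h0] at hwW
    simp only [Nat.cast_zero, Real.log_zero, zero_mul] at hwW
    linarith
  have hi0' : (0 : ℝ) < i := by exact_mod_cast Nat.pos_of_ne_zero hi0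
  have hexp : Real.exp (2 * (c₀ / 2) * gain C N) ≤ i := by
    rw [← Real.le_log_iff_exp_le hi0', show 2 * (c₀ / 2) * gain C N =
      c₀ * gain C N by ring]
    exact hth
  have hwo : W ≤ (p - 1).primeFactors.card := by
    have hp2 : p ≠ 2 := by
      rintro rfl
      have h5 : 2 ∣ N := by
        rw [hNM]
        exact Dvd.dvd.mul_right (dvd_pow_self 2 hk1) M
      exact (Nat.not_even_iff_odd.2 hodd) (even_iff_two_dvd.2 h5)
    exact IP.card_le_omega hp hp2
  have hsave : ∀ w : ℕ, W ≤ w →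
      (p : ℝ) ^ k < √2 * (N : ℝ) ^ ((1 : ℝ) / 2 - 1 / (35002 * (w : ℝ))) := by
    intro w hWw
    have h5 : (W : ℝ) ≤ w := by exact_mod_cast hWw
    have h6 : (35002 : ℝ) * w = 2 * (17501 * w) := by ring
    rw [h6]
    have hW1 : (1 : ℝ) ≤ W := by
      have : 1 ≤ W := by rw [hW]; omega
      exact_mod_cast this
    refine Idx.power_saving hodd hperf hp hpM hNM hk1 (by linarith) ?_
    refine hwW.trans (mul_le_mul_of_nonneg_left ?_ hI)
    linarith
  refine ⟨h1, hexp, ?_, hwo, ?_, hsave _ hwo, ?_⟩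
  · rw [mul_min_of_nonneg _ _ hI]
    exact le_min hwW h4
  · refine lt_sqrt_exp hp (Idx.two_mul_lt hodd hperf hp hpM hNM
      (Nat.one_le_iff_ne_zero.mpr hk1)) ?_
    rw [← mul_assoc]
    exact hexp
  · intro B hB hB2
    have hWB : W ≤ Nat.primeCounting (B + 1) := by
      refine IP.card_le_bounded hB ?_
      intro r hr
      obtain ⟨hrN, hrp, hf⟩ := hfac r hr
      rw [hf]
      exact hB2 r hrN hrp
    exact ⟨hWB, hsave _ hWB⟩

end Pool.Agent.Results.MP_f02ea4_nt.IndexPrimes
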