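import Pool.Agent.Lib.MP_f02ea4_nt.TB.LPFinal

/-!
# The largest prime factor of an odd perfect number

1. There are absolute constants `C` and `c > 0` such that for every odd perfect number `N` every
   prime factor `P` of `N` satisfies `P³ exp (c (log N) ^ (2 / 3) / (1 + log log N) ^ C) < 3 N`
   (Acquaah and Konyagin: `P³ < 3 N`).

There is an absolute constant `c > 0` such that for every odd perfect number `N`:

2. if all exponents of `N` are at most `B`, every prime factor `P` satisfies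
   `P ^ (3 + c / π(B + 1)) < 3 N`, where `π` counts primes;
3. if `P` is a prime exactly dividing `N`, `q ^ b` is a prime power exactly dividing `N` and
   `P ∣ σ(q ^ b)`, then `P³ (2 ^ b q) ^ c < 3 N` and `P ^ (3 + c / ω(q - 1)) < 3 N`, where
   `ω(q - 1)` is the number of prime factors of `q - 1`.
-/

set_option autoImplicit false

open ArithmeticFunction (sigma)

theorem Pool.Agent.Results.MP_f02ea4_nt.LargestPrime.result :
    (∃ C : ℕ, ∃ c : ℝ, 0 < c ∧ ∀ N : ℕ, Odd N → Nat.Perfect N →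
      ∀ P : ℕ, P.Prime → P ∣ N →
        (P : ℝ) ^ 3 * Real.exp (c * (Real.log N ^ ((2 : ℝ) / 3) /
          (1 + Real.log (Real.log N)) ^ C)) < 3 * N) ∧
    ∃ c : ℝ, 0 < c ∧ ∀ N : ℕ, Odd N → Nat.Perfect N →
    (∀ B : ℕ, (∀ p : ℕ, N.factorization p ≤ B) → ∀ P : ℕ, P.Prime → P ∣ N →
      (P : ℝ) ^ (3 + c / (Nat.primeCounting (B + 1) : ℝ)) < 3 * N) ∧
    (∀ P q : ℕ, P.Prime → N.factorization P = 1 → q.Prime → q ∣ N →
      P ∣ sigma 1 (q ^ N.factorization q) →
      (P : ℝ) ^ 3 * ((2 : ℝ) ^ N.factorization q * q) ^ c < 3 * N ∧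
      (P : ℝ) ^ (3 + c / ((q - 1).primeFactors.card : ℝ)) < 3 * N) := by
  refine ⟨Pool.Agent.MP_f02ea4.TB.LP_first, ?_⟩
  obtain ⟨c, hc, h⟩ := Pool.Agent.Lib.MP_f02ea4_nt.IP.LP_final3
  exact ⟨c, hc, fun N hN hp => (h N hN hp).2⟩
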