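import Mathlib
import Pool.Agent.Lib.MP_f02ea4_nt.QR.ManyG

set_option autoImplicit false

namespace Pool.Agent.Results.MP_f02ea4_nt.ManyLargePrimes

/-- Many prime factors of an odd perfect number are large.  Let `N` be an odd perfect number and
`y ≥ 2`; let `j` primes exceeding `y` divide `N` and let `k - 1` be the number of the other prime
factors.  For every `ε > 0` there is `C` such that
(1) `log N ≤ C ^ (j + 1) * y ^ ε * B`, where `B = k * y ^ (1 / 2)` for `j = 0`,
`B = min (k * y) (y ^ (3 / 2))` for `j = 1` and `B = k * y` for `j ≥ 2`;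
(2) if `N ≥ C`, at least `log (log N) / C` prime factors of `N` exceed `(log N) ^ (1 / 2 - ε)`. -/
theorem result (ε : ℝ) (hε : 0 < ε) : ∃ C : ℕ, 1 ≤ C ∧ ∀ N : ℕ, Odd N → Nat.Perfect N →
    (∀ y k j : ℕ, 2 ≤ y → k = (N.primeFactors.filter (· ≤ y)).card + 1 →
      j = (N.primeFactors.filter (y < ·)).card →
      Real.log N ≤ (C : ℝ) ^ (j + 1) * (y : ℝ) ^ ε *
        (if j = 0 then (k : ℝ) * (y : ℝ) ^ (1 / 2 : ℝ)
          else if j = 1 then min ((k : ℝ) * y) ((y : ℝ) ^ (3 / 2 : ℝ)) else (k : ℝ) * y)) ∧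
    (C ≤ N → Real.log (Real.log N) ≤
      C * (N.primeFactors.filter (fun p : ℕ => Real.log N ^ (1 / 2 - ε) < p)).card) :=
  Pool.Agent.MP_f02ea4.QR.many_v3 ε hε

end Pool.Agent.Results.MP_f02ea4_nt.ManyLargePrimes
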