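import Mathlib
import Pool.Agent.Lib.MP_f02ea4_nt.QR.FinalS

set_option autoImplicit false

namespace Pool.Agent.Results.MP_f02ea4_nt.QuasiRadical

/-- The logarithm of an odd perfect number is at most quasipolynomial in the logarithm of its radical.
There is an absolute constant `C` such that for every odd perfect number `N`, with `L = log (log N)`:
(1) `L ≤ C * (log (log (rad N))) ^ 2`;
(2) for every `y ≥ 3`, if `k` prime factors of `N` are `≤ y` and `m` are `> y`, and
`l = 1 + log (1 + k / L)`, `lam = log (L + log y)`, then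
`L ≤ C * (m + l * (lam + min l (lam * log y / L)))`;
(3) if `N ≥ C` and `w` is the number of prime factors of `N`, then `w ≥ exp (√L / C)` or at least `L / C`
prime factors of `N` exceed `exp (exp (L / (C * log w)))`. -/
theorem result : ∃ C : ℕ, 1 ≤ C ∧ ∀ N : ℕ, Odd N → Nat.Perfect N →
    Real.log (Real.log N) ≤ C * Real.log (Real.log ((∏ p ∈ N.primeFactors, p : ℕ) : ℝ)) ^ 2 ∧
    (∀ (y m : ℕ) (l lam : ℝ), 3 ≤ y → m = (N.primeFactors.filter (y < ·)).card →
      l = 1 + Real.log (1 + (N.primeFactors.filter (· ≤ y)).card / Real.log (Real.log N)) →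
      lam = Real.log (Real.log (Real.log N) + Real.log y) →
      Real.log (Real.log N) ≤
        C * (m + l * (lam + min l (lam * Real.log y / Real.log (Real.log N))))) ∧
    (C ≤ N → Real.exp (√(Real.log (Real.log N)) / C) ≤ N.primeFactors.card ∨
      Real.log (Real.log N) ≤ C * (N.primeFactors.filter (fun p : ℕ =>
        Real.exp (Real.exp (Real.log (Real.log N) / (C * Real.log N.primeFactors.card))) < p)).card) :=
  Pool.Agent.MP_f02ea4.QR.quasi_radical

end Pool.Agent.Results.MP_f02ea4_nt.QuasiRadical
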